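import Pool.Agent.NCMk.Defs

/-!
# Artin's theorem and the counting lemma over an arbitrary field
-/

open MvPolynomial IntermediateField

namespace Pool.Agent.NCMk

variable (k : Type) [Field k]

theorem act_algebraMap {ι : Type} (σ : Equiv.Perm ι) (f : MvPolynomial ι k) :
    act k σ (algebraMap (MvPolynomial ι k) (RatF k ι) f) =
      algebraMap (MvPolynomial ι k) (RatF k ι) (rename σ f) := by
  simp [act]

theorem act_vr {ι : Type} (σ : Equiv.Perm ι) (i : ι) : act k σ (vr k i) = vr k (σ i) := by
  rw [vr, act_algebraMap, rename_X, vr]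

theorem hom_ext {ι : Type} (a b : RatF k ι ≃ₐ[k] RatF k ι)
    (h : ∀ f : MvPolynomial ι k, a (algebraMap (MvPolynomial ι k) (RatF k ι) f) =
      b (algebraMap (MvPolynomial ι k) (RatF k ι) f)) : a = b := by
  ext f
  obtain ⟨p, q, hq, rfl⟩ := IsFractionRing.div_surjective (A := MvPolynomial ι k) f
  rw [map_div₀, map_div₀, h, h]

/-- The action as a group homomorphism. -/
noncomputable def actHom (ι : Type) : Equiv.Perm ι →* (RatF k ι ≃ₐ[k] RatF k ι) where
  toFun := act k
  map_one' := by
    apply hom_ext
    intro f
    rw [act_algebraMap]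
    simp
  map_mul' := by
    intro σ τ
    apply hom_ext
    intro f
    rw [act_algebraMap, AlgEquiv.mul_apply, act_algebraMap, act_algebraMap, rename_rename]
    rfl

theorem act_mul {ι : Type} (σ τ : Equiv.Perm ι) (f : RatF k ι) :
    act k (σ * τ) f = act k σ (act k τ f) :=
  congrArg (fun a : RatF k ι ≃ₐ[k] RatF k ι => a f) ((actHom k ι).map_mul σ τ)

theorem act_one {ι : Type} (f : RatF k ι) : act k (1 : Equiv.Perm ι) f = f :=
  congrArg (fun a : RatF k ι ≃ₐ[k] RatF k ι => a f) ((actHom k ι).map_one)

theorem vr_injective (ι : Type) : Function.Injective (vr k : ι → RatF k ι) := by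
  intro i j h
  exact X_injective (IsFractionRing.injective (MvPolynomial ι k) (RatF k ι) h)

theorem actHom_injective (ι : Type) : Function.Injective (actHom k ι) := by
  intro σ τ h
  ext i
  have h1 : act k σ (vr k i) = act k τ (vr k i) :=
    congrArg (fun a : RatF k ι ≃ₐ[k] RatF k ι => a (vr k i)) h
  rw [act_vr, act_vr] at h1
  exact vr_injective k ι h1

theorem isAlg {ι : Type} [Fintype ι] (H : Subgroup (Equiv.Perm ι)) :
    Algebra.IsAlgebraic (invField k H) (RatF k ι) := by
  classical
  set R : Subgroup (RatF k ι ≃ₐ[k] RatF k ι) := H.map (actHom k ι) with hR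
  have hfin : Finite R := by
    rw [hR]
    exact Finite.of_equiv H ((H.equivMapOfInjective (actHom k ι) (actHom_injective k ι)).toEquiv)
  let _ : Fintype R := Fintype.ofFinite R
  have hsub : (invField k H).toSubfield = FixedPoints.subfield R (RatF k ι) := by
    ext f
    constructor
    · intro hf r
      obtain ⟨σ, hσ, hr⟩ := r.2
      have : (r : RatF k ι ≃ₐ[k] RatF k ι) f = f := by
        rw [← hr]
        exact hf σ hσ
      exact this
    · intro hf σ hσ
      exact hf ⟨actHom k ι σ, ⟨σ, hσ, rfl⟩⟩
  have key : Module.finrank (FixedPoints.subfield R (RatF k ι)) (RatF k ι) = Fintype.card R :=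
    FixedPoints.finrank_eq_card R (RatF k ι)
  have h1 : Module.finrank (invField k H) (RatF k ι) =
      Module.finrank (invField k H).toSubfield (RatF k ι) := rfl
  rw [← hsub] at key
  have h2 : 0 < Module.finrank (invField k H) (RatF k ι) := by
    rw [h1, key]
    exact Fintype.card_pos
  have : Module.Finite (invField k H) (RatF k ι) := Module.finite_of_finrank_pos h2
  exact Algebra.IsAlgebraic.of_finite _ _

open scoped IntermediateField.algebraAdjoinAdjoin in
theorem count {ι : Type} [Fintype ι] (y : ι → RatF k ι)
    (halg : Algebra.IsAlgebraic (adjoin k (Set.range y)) (RatF k ι)) :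
    AlgebraicIndependent k y := by
  have h1 : Algebra.IsAlgebraic (Algebra.adjoin k (Set.range y)) (RatF k ι) :=
    (IsFractionRing.comap_isAlgebraic_iff (A := Algebra.adjoin k (Set.range y))
      (K := adjoin k (Set.range y)) (C := RatF k ι)).mpr halg
  have h2 : Algebra.IsAlgebraic (MvPolynomial ι k) (RatF k ι) :=
    IsLocalization.isAlgebraic _ (nonZeroDivisors (MvPolynomial ι k))
  have hb : IsTranscendenceBasis k (algebraMap (MvPolynomial ι k) (RatF k ι) ∘ X) :=
    (IsTranscendenceBasis.mvPolynomial ι k).algebraMap_comp (A := RatF k ι)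
  exact (Algebra.IsAlgebraic.isTranscendenceBasis_of_le_trdeg_of_finite k y
    hb.cardinalMk_eq_trdeg.le).1

/-- The variables generate the field of rational functions. -/
theorem adjoin_range_vr (ι : Type) : adjoin k (Set.range (vr k : ι → RatF k ι)) = ⊤ := by
  rw [eq_top_iff]
  intro f _
  have hpoly : ∀ p : MvPolynomial ι k, algebraMap (MvPolynomial ι k) (RatF k ι) p ∈
      adjoin k (Set.range (vr k : ι → RatF k ι)) := by
    intro p
    induction p using MvPolynomial.induction_on with
    | C a =>
      have h : algebraMap (MvPolynomial ι k) (RatF k ι) (C a) = algebraMap k (RatF k ι) a := by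
        rw [IsScalarTower.algebraMap_apply k (MvPolynomial ι k) (RatF k ι)]
        rfl
      rw [h]
      exact (adjoin k (Set.range (vr k : ι → RatF k ι))).algebraMap_mem a
    | add p q hp hq =>
      rw [map_add]
      exact add_mem hp hq
    | mul_X p i hp =>
      rw [map_mul]
      exact mul_mem hp (subset_adjoin k _ ⟨i, rfl⟩)
  obtain ⟨a, b, _, rfl⟩ := IsFractionRing.div_surjective (A := MvPolynomial ι k) f
  exact div_mem (hpoly a) (hpoly b)

end Pool.Agent.NCMk
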