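import Pool.Agent.NCM.Stmts
import Pool.Agent.NCMk.Base

/-!
# The pair `(diag (x_i), (1 / (x_i - x_j)))` is a Calogero-Moser pair
-/

open Matrix Pool.Agent.NCM

namespace Pool.Agent.NCMk

namespace CMX

variable (k : Type) [Field k]

theorem skew (n : ℕ) : (cmA k n)ᵀ = - cmA k n := by
  ext i j
  simp only [cmA, transpose_apply, of_apply, Matrix.neg_apply]
  rw [← neg_sub (vr k i) (vr k j)]
  exact _root_.inv_neg

theorem symm (n : ℕ) : (cmX k n)ᵀ = cmX k n := by
  rw [cmX, diagonal_transpose]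

theorem comm (n : ℕ) : cmX k n * cmA k n - cmA k n * cmX k n = vecMulVec (cmv k n) (cmv k n) - 1 := by
  ext i j
  rw [Matrix.sub_apply, Matrix.sub_apply, cmX, diagonal_mul, mul_diagonal, vecMulVec_apply,
    one_apply]
  simp only [cmA, of_apply, cmv]
  by_cases h : i = j
  · subst h
    simp
  · have h1 : (vr k i : RatF k (Fin n)) - vr k j ≠ 0 := sub_ne_zero.mpr fun e => h (vr_injective k _ e)
    rw [if_neg h]
    field_simp
    ring

theorem two [CharZero k] (n : ℕ) : (2 : RatF k (Fin n)) ≠ 0 := by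
  have h : (2 : RatF k (Fin n)) = algebraMap k (RatF k (Fin n)) 2 := by rw [map_ofNat]
  rw [h]
  exact (map_ne_zero _).mpr two_ne_zero

end CMX

theorem CMX_thm (k : Type) [Field k] [CharZero k] (n : ℕ)
    (h : (kry (cmA k n) (cmv k n)).det ≠ 0) : CM (cmA k n) (cmX k n) (cmv k n) :=
  ⟨CMX.skew k n, CMX.symm k n, CMX.comm k n, CMX.two k n, h⟩

end Pool.Agent.NCMk
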