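import Pool.Agent.NCM.DOD

/-!
# The determinant of `A` for even `n`
-/

open Matrix

namespace Pool.Agent.NCMk

open Pool.Agent.NCM

theorem DEV_thm (h2 : Stmt_COMP) : Stmt_DEV := by
  intro K _ n A X v h0 hCM heven
  obtain ⟨m, rfl⟩ : ∃ m, n = m + 1 := ⟨n - 1, by omega⟩
  have hU : IsUnit (kry A v).det := isUnit_iff_ne_zero.mpr hCM.cyc
  obtain ⟨hC, -⟩ := h2 K (m + 1) A X v hCM
  have hdet : A.det = ((kry A v)⁻¹ * A * kry A v).det := by
    rw [det_mul, det_mul, mul_comm (kry A v)⁻¹.det, mul_assoc, ← det_mul,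
      nonsing_inv_mul _ hU, det_one, mul_one]
  rw [hdet, DOD.det_comp ((kry A v)⁻¹ * A * kry A v)
    (fun j => if j = Fin.last m then cvec A v 0 else 0) (cvec A v)]
  · have hm : Odd m := by
      rcases Nat.even_or_odd m with h | h
      · exact absurd heven (Nat.not_even_iff_odd.mpr h.add_one)
      · exact h
    rw [if_pos rfl, hm.neg_one_pow, Finset.sum_eq_zero, sub_zero, neg_one_mul]
    · rfl
    · intro i _
      rw [if_neg (Fin.castSucc_lt_last i).ne, mul_zero]
  · intro j
    rw [hC]
    by_cases h : j = Fin.last m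
    · rw [if_pos h, if_pos (by rw [h]; rfl)]
    · have h1 : (j : ℕ) + 1 ≠ m + 1 := fun e => h (Fin.ext (by simpa using e))
      rw [if_neg h, if_neg h1, if_neg]
      simp
  · intro i j
    rw [hC]
    by_cases h : j = Fin.last m
    · have h1 : j ≠ i.castSucc := by
        rw [h]
        exact (Fin.castSucc_lt_last i).ne'
      rw [if_pos h, if_neg h1, if_pos (by rw [h]; rfl), zero_add]
    · have h1 : (j : ℕ) + 1 ≠ m + 1 := fun e => h (Fin.ext (by simpa using e))
      rw [if_neg h, if_neg h1, add_zero]
      by_cases h2 : j = i.castSucc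
      · rw [if_pos h2, if_pos]
        rw [h2]
        simp
      · rw [if_neg h2, if_neg]
        intro e
        apply h2
        ext
        have : (i : ℕ) + 1 = (j : ℕ) + 1 := by simpa using e
        simpa using (Nat.succ_injective this).symm

end Pool.Agent.NCMk
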