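import Pool.Agent.NCM.Defs

/-!
# Fields of invariants of permutation groups over an arbitrary field
-/

open MvPolynomial IntermediateField Matrix

namespace Pool.Agent.NCMk

/-- The field `k(x_i : i ∈ ι)` of rational functions. -/
abbrev RatF (k : Type) [Field k] (ι : Type) : Type := FractionRing (MvPolynomial ι k)

/-- The variable `x_i` in `k(x_i : i ∈ ι)`. -/
noncomputable def vr (k : Type) [Field k] {ι : Type} (i : ι) : RatF k ι :=
  algebraMap (MvPolynomial ι k) (RatF k ι) (X i)

/-- The automorphism `f ↦ f(x_{σ i} : i ∈ ι)` of `k(x_i : i ∈ ι)` over `k`. -/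
noncomputable def act (k : Type) [Field k] {ι : Type} (σ : Equiv.Perm ι) :
    RatF k ι ≃ₐ[k] RatF k ι :=
  IsFractionRing.algEquivOfAlgEquiv (renameEquiv k σ)

/-- The field of invariants `k(x_i : i ∈ ι)^H`. -/
noncomputable def invField (k : Type) [Field k] {ι : Type} (H : Subgroup (Equiv.Perm ι)) :
    IntermediateField k (RatF k ι) where
  carrier := {f | ∀ σ ∈ H, act k σ f = f}
  mul_mem' := by
    intro a b ha hb σ hσ
    rw [map_mul, ha σ hσ, hb σ hσ]
  add_mem' := by
    intro a b ha hb σ hσ
    rw [map_add, ha σ hσ, hb σ hσ]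
  algebraMap_mem' := by
    intro r σ hσ
    exact (act k σ).commutes r
  inv_mem' := by
    intro a ha σ hσ
    rw [map_inv₀, ha σ hσ]

/-- The matrix `(1 / (x_i - x_j))` over the field of rational functions. -/
noncomputable def cmA (k : Type) [Field k] (n : ℕ) : Matrix (Fin n) (Fin n) (RatF k (Fin n)) :=
  Matrix.of fun i j => (vr k i - vr k j)⁻¹

/-- The matrix `diag (x_i)`. -/
noncomputable def cmX (k : Type) [Field k] (n : ℕ) : Matrix (Fin n) (Fin n) (RatF k (Fin n)) :=
  Matrix.diagonal fun i => vr k i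

/-- The vector `(1, ..., 1)`. -/
noncomputable def cmv (k : Type) [Field k] (n : ℕ) : Fin n → RatF k (Fin n) := fun _ => 1

end Pool.Agent.NCMk
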