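import Pool.Agent.NCM.Stmts
import Pool.Agent.NCMk.Base

/-!
# Behaviour of the Calogero-Moser pair under permutations of the variables
-/

open Matrix Pool.Agent.NCM

namespace Pool.Agent.NCMk

namespace EQV

variable {k : Type} [Field k] {n : ℕ}

theorem map_A (σ : Equiv.Perm (Fin n)) :
    (cmA k n).map (act k σ : RatF k (Fin n) →+* RatF k (Fin n)) = (cmA k n).submatrix σ σ := by
  ext i j
  simp [cmA, act_vr]

theorem map_X (σ : Equiv.Perm (Fin n)) :
    (cmX k n).map (act k σ : RatF k (Fin n) →+* RatF k (Fin n)) = (cmX k n).submatrix σ σ := by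
  ext i j
  rw [Matrix.map_apply, submatrix_apply]
  by_cases h : i = j
  · subst h
    simp [cmX, act_vr]
  · have h' : σ i ≠ σ j := fun h1 => h (σ.injective h1)
    rw [cmX, diagonal_apply_ne _ h, diagonal_apply_ne _ h', map_zero]

theorem map_Apow (σ : Equiv.Perm (Fin n)) (m : ℕ) :
    (cmA k n ^ m).map (act k σ : RatF k (Fin n) →+* RatF k (Fin n)) = (cmA k n ^ m).submatrix σ σ := by
  induction m with
  | zero =>
    rw [pow_zero, Matrix.map_one _ (map_zero _) (map_one _), submatrix_one_equiv]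
  | succ m ih =>
    rw [pow_succ, Matrix.map_mul, ih, map_A, submatrix_mul_equiv]

theorem map_Av (σ : Equiv.Perm (Fin n)) (m : ℕ) (i : Fin n) :
    act k σ ((cmA k n ^ m *ᵥ cmv k n) i) = (cmA k n ^ m *ᵥ cmv k n) (σ i) := by
  have h := RingHom.map_mulVec (act k σ : RatF k (Fin n) →+* RatF k (Fin n)) (cmA k n ^ m) (cmv k n) i
  have h2 : ((act k σ : RatF k (Fin n) →+* RatF k (Fin n)) : RatF k (Fin n) → RatF k (Fin n)) ∘ cmv k n = cmv k n := by
    funext j
    simp [cmv]
  rw [h2, map_Apow, submatrix_mulVec_equiv] at h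
  have h3 : cmv k n ∘ (σ.symm : Fin n → Fin n) = cmv k n := rfl
  rw [h3] at h
  exact h

theorem map_kry (σ : Equiv.Perm (Fin n)) :
    (kry (cmA k n) (cmv k n)).map (act k σ : RatF k (Fin n) →+* RatF k (Fin n)) =
      (kry (cmA k n) (cmv k n)).submatrix σ id := by
  ext i j
  exact map_Av σ j i

theorem map_inv {K : Type} [Field K] (φ : K →+* K) (M : Matrix (Fin n) (Fin n) K) :
    (M⁻¹).map φ = (M.map φ)⁻¹ := by
  have h1 : (M.map φ).det = φ M.det := (φ.map_det M).symm
  have h2 : (M.map φ).adjugate = M.adjugate.map φ := (φ.map_adjugate M).symm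
  rw [inv_def, inv_def, h1, h2, Ring.inverse_eq_inv', ← map_inv₀]
  ext i j
  simp

end EQV

open EQV in
theorem EQV_thm (k : Type) [Field k] (n : ℕ) (σ : Equiv.Perm (Fin n)) :
    act k σ (kry (cmA k n) (cmv k n)).det =
      (Equiv.Perm.sign σ : ℤ) • (kry (cmA k n) (cmv k n)).det ∧
    (∀ i, act k σ (cvec (cmA k n) (cmv k n) i) = cvec (cmA k n) (cmv k n) i) ∧
    (∀ j : ℕ, act k σ (trace (cmX k n * cmA k n ^ j)) = trace (cmX k n * cmA k n ^ j)) := by
  refine ⟨?_, ?_, ?_⟩
  · have h := RingHom.map_det (act k σ : RatF k (Fin n) →+* RatF k (Fin n)) (kry (cmA k n) (cmv k n))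
    have h2 : ((act k σ : RatF k (Fin n) →+* RatF k (Fin n))).mapMatrix (kry (cmA k n) (cmv k n)) =
        (kry (cmA k n) (cmv k n)).submatrix σ id := map_kry σ
    rw [h2, det_permute] at h
    rw [zsmul_eq_mul]
    exact h
  · intro i
    have h := RingHom.map_mulVec (act k σ : RatF k (Fin n) →+* RatF k (Fin n)) (kry (cmA k n) (cmv k n))⁻¹
      (cmA k n ^ n *ᵥ cmv k n) i
    have h2 : ((act k σ : RatF k (Fin n) →+* RatF k (Fin n)) : RatF k (Fin n) → RatF k (Fin n)) ∘
        (cmA k n ^ n *ᵥ cmv k n) = (cmA k n ^ n *ᵥ cmv k n) ∘ σ := by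
      funext j
      exact map_Av σ n j
    have h3 : ((kry (cmA k n) (cmv k n)).submatrix σ id)⁻¹ =
        (kry (cmA k n) (cmv k n))⁻¹.submatrix (Equiv.refl (Fin n)) σ :=
      inv_submatrix_equiv (kry (cmA k n) (cmv k n)) σ (Equiv.refl (Fin n))
    rw [h2, EQV.map_inv, map_kry, h3, submatrix_mulVec_equiv] at h
    have h4 : ((cmA k n ^ n *ᵥ cmv k n) ∘ σ) ∘ (σ.symm : Fin n → Fin n) = cmA k n ^ n *ᵥ cmv k n := by
      funext j
      simp
    rw [h4] at h
    exact h
  · intro j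
    have h := AddMonoidHom.map_trace (act k σ : RatF k (Fin n) →+* RatF k (Fin n)) (cmX k n * cmA k n ^ j)
    rw [Matrix.map_mul, map_X, map_Apow, submatrix_mul_equiv] at h
    have h2 : trace ((cmX k n * cmA k n ^ j).submatrix σ σ) = trace (cmX k n * cmA k n ^ j) := by
      simp only [trace, diag_apply, submatrix_apply]
      exact Equiv.sum_comp σ fun i => (cmX k n * cmA k n ^ j) i i
    rw [h2] at h
    exact h

end Pool.Agent.NCMk
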