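import Pool.Agent.NCMk.CMX
import Pool.Agent.NCMk.SYF
import Pool.Agent.NCMk.EQV

/-!
# Noether's problem for the alternating groups: assembly
-/

open Matrix Pool.Agent.NCM IntermediateField

namespace Pool.Agent.NCMk

namespace FIN

variable (k : Type) [Field k]

theorem algInd {n : ℕ} {H : Subgroup (Equiv.Perm (Fin n))} {y : Fin n → RatF k (Fin n)}
    (h : adjoin k (Set.range y) = invField k H) : AlgebraicIndependent k y := by
  apply count
  rw [h]
  exact isAlg k H

theorem small {n : ℕ} (hn : ¬ n % 2 < n) :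
    ∃ y : Fin n → RatF k (Fin n), AlgebraicIndependent k y ∧
      adjoin k (Set.range y) = invField k (alternatingGroup (Fin n)) := by
  have hn1 : n ≤ 1 := by
    by_contra h
    exact hn (lt_of_lt_of_le (Nat.mod_lt n (by norm_num)) (by omega))
  haveI : Subsingleton (Fin n) := Fin.subsingleton_iff_le_one.mpr hn1
  have htop : invField k (alternatingGroup (Fin n)) = ⊤ := by
    rw [eq_top_iff]
    intro f _ σ _
    rw [Subsingleton.elim σ 1, act_one]
  refine ⟨vr k, algInd k (H := alternatingGroup (Fin n)) ?_, ?_⟩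
  · rw [htop, adjoin_range_vr]
  · rw [htop, adjoin_range_vr]

/-- An even function is a combination of `1` and `P` with symmetric coefficients. -/
theorem decomp [CharZero k] {n : ℕ} (hn : n % 2 < n) (P : RatF k (Fin n)) (hP : P ≠ 0)
    (hPs : ∀ σ : Equiv.Perm (Fin n), act k σ P = (Equiv.Perm.sign σ : ℤ) • P)
    (f : RatF k (Fin n)) (hf : f ∈ invField k (alternatingGroup (Fin n))) :
    ∃ a ∈ invField k (⊤ : Subgroup (Equiv.Perm (Fin n))),
      ∃ b ∈ invField k (⊤ : Subgroup (Equiv.Perm (Fin n))), f = a + b * P := by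
  have h2 : 2 ≤ n := by
    rcases Nat.lt_or_ge n 2 with h | h
    · interval_cases n <;> omega
    · exact h
  set τ : Equiv.Perm (Fin n) := Equiv.swap ⟨0, by omega⟩ ⟨1, by omega⟩ with hτ
  have hτs : Equiv.Perm.sign τ = -1 := by
    rw [hτ]
    apply Equiv.Perm.sign_swap
    intro h
    simp [Fin.ext_iff] at h
  set g := act k τ f with hg
  have heven : ∀ σ : Equiv.Perm (Fin n), Equiv.Perm.sign σ = 1 → act k σ f = f := by
    intro σ hσ
    exact hf σ (Equiv.Perm.mem_alternatingGroup.mpr hσ)
  have hf1 : ∀ σ : Equiv.Perm (Fin n), Equiv.Perm.sign σ = 1 → act k σ g = g := by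
    intro σ hσ
    have e : σ * τ = τ * (τ⁻¹ * (σ * τ)) := by group
    rw [hg, ← act_mul, e, act_mul, heven]
    rw [map_mul, map_mul, hσ, map_inv, hτs]
    norm_num
  have hf2 : ∀ σ : Equiv.Perm (Fin n), Equiv.Perm.sign σ = -1 → act k σ f = g := by
    intro σ hσ
    have e : σ = τ * (τ⁻¹ * σ) := by group
    rw [e, act_mul, heven]
    rw [map_mul, hσ, map_inv, hτs]
    norm_num
  have hf3 : ∀ σ : Equiv.Perm (Fin n), Equiv.Perm.sign σ = -1 → act k σ g = f := by
    intro σ hσ
    rw [hg, ← act_mul, heven]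
    rw [map_mul, hσ, hτs]
    norm_num
  have h20 : (2 : RatF k (Fin n)) ≠ 0 := CMX.two k n
  have hact2 : ∀ σ : Equiv.Perm (Fin n), act k σ (2 : RatF k (Fin n)) = 2 := fun σ => map_ofNat _ 2
  refine ⟨(f + g) / 2, ?_, (f - g) / (2 * P), ?_, ?_⟩
  · intro σ _
    rcases Int.units_eq_one_or (Equiv.Perm.sign σ) with h | h
    · rw [map_div₀, map_add, heven σ h, hf1 σ h, hact2]
    · rw [map_div₀, map_add, hf2 σ h, hf3 σ h, hact2, add_comm]
  · intro σ _
    rcases Int.units_eq_one_or (Equiv.Perm.sign σ) with h | h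
    · rw [map_div₀, map_sub, heven σ h, hf1 σ h, map_mul, hact2, hPs, h]
      simp
    · rw [map_div₀, map_sub, hf2 σ h, hf3 σ h, map_mul, hact2, hPs, h]
      simp only [Units.val_neg, Units.val_one, neg_smul, one_smul, mul_neg]
      rw [div_neg, ← neg_div, neg_sub]
  · field_simp
    ring

end FIN

open FIN in
variable (k : Type) [Field k] in
theorem FIN_thm (hT : Stmt_TRC) (hM : Stmt_COMP) (hC : Stmt_CORE) (hP : Stmt_PF)
    [CharZero k] (n : ℕ) (hN : (kry (cmA k n) (cmv k n)).det ≠ 0) :
    ∃ y : Fin n → RatF k (Fin n), AlgebraicIndependent k y ∧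
      adjoin k (Set.range y) = invField k (alternatingGroup (Fin n)) := by
  by_cases hn : n % 2 < n
  swap
  · exact small k hn
  have hCM := CMX_thm k n hN
  set A := cmA k n with hA
  set X := cmX k n with hX
  set v := cmv k n with hv
  set c := cvec A v with hc
  obtain ⟨hM1, hM2⟩ := hM (RatF k (Fin n)) n A X v hCM
  -- the generators
  set y : Fin n → RatF k (Fin n) := fun i =>
    if Even (n + (i : ℕ)) then c i else trace (X * A ^ (n - 1 - (i : ℕ))) with hy
  set L := adjoin k (Set.range y) with hL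
  have hyL : ∀ i, y i ∈ L := fun i => subset_adjoin k _ ⟨i, rfl⟩
  have hcL : ∀ i, c i ∈ L := by
    intro i
    by_cases h : Even (n + (i : ℕ))
    · have h1 := hyL i
      rw [hy] at h1
      simpa only [if_pos h] using h1
    · have h1 : c i = 0 := hM2 i (Nat.not_even_iff_odd.mp h)
      rw [h1]
      exact zero_mem L
  have hLC : ∀ i j, ((kry A v)⁻¹ * A * kry A v) i j ∈ (algebraMap L (RatF k (Fin n))).range := by
    intro i j
    rw [hM1]
    split_ifs
    · exact ⟨⟨c i, hcL i⟩, rfl⟩
    · exact one_mem _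
    · exact zero_mem _
  have hLX : ∀ j : ℕ, Even j → j < n →
      trace (X * A ^ j) ∈ (algebraMap L (RatF k (Fin n))).range := by
    intro j hj hjn
    refine ⟨⟨trace (X * A ^ j), ?_⟩, rfl⟩
    have h1 := hyL ⟨n - 1 - j, by omega⟩
    have h2 : ¬ Even (n + (n - 1 - j)) := by
      rw [Nat.not_even_iff_odd]
      obtain ⟨k, hk⟩ := hj
      exact ⟨n - 1 - k, by omega⟩
    have h3 : n - 1 - (n - 1 - j) = j := by omega
    rw [hy] at h1
    simp only [if_neg h2, h3] at h1
    exact h1
  have hchar := hC (RatF k (Fin n)) L n A X v hCM hLC hLX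
  have hSL : invField k ⊤ ≤ L := by
    apply SYF_thm
    intro j
    obtain ⟨a, ha⟩ := hchar j
    have h1 : X.charpoly = ∏ i : Fin n, (Polynomial.X - Polynomial.C (vr k i : RatF k (Fin n))) := by
      rw [hX, cmX, charpoly_diagonal]
    rw [← h1, ← ha]
    exact a.2
  have hLS : L ≤ invField k ⊤ := by
    rw [hL, adjoin_le_iff]
    rintro _ ⟨i, rfl⟩ σ _
    obtain ⟨-, h2, h3⟩ := EQV_thm k n σ
    simp only [hy]
    split_ifs
    · exact h2 i
    · exact h3 _
  have hLeq : L = invField k ⊤ := le_antisymm hLS hSL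
  -- the square root
  obtain ⟨r, hr⟩ := hP (RatF k (Fin n)) L n A X v hn hCM hLC
  set e : Fin n := ⟨n % 2, hn⟩ with he
  set P : RatF k (Fin n) := algebraMap L (RatF k (Fin n)) r / (kry A v).det with hPdef
  have hye : y e = c e := by
    simp only [hy]
    rw [if_pos]
    rcases Nat.even_or_odd n with h | h
    · exact h.add (by simp [he, Nat.even_iff.mp h])
    · exact h.add_odd (by simp [he, Nat.odd_iff.mp h])
  have hye0 : y e ≠ 0 := (algInd k hLeq).ne_zero e
  have hP0 : P ≠ 0 := by
    intro h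
    rw [h] at hr
    apply hye0
    rw [hye, ← neg_eq_zero, ← hr]
    ring
  have hPs : ∀ σ : Equiv.Perm (Fin n), act k σ P = (Equiv.Perm.sign σ : ℤ) • P := by
    intro σ
    have h1 : act k σ (algebraMap L (RatF k (Fin n)) r) = algebraMap L (RatF k (Fin n)) r :=
      hLS r.2 σ (Subgroup.mem_top σ)
    have h2 : act k σ (kry A v).det = (Equiv.Perm.sign σ : ℤ) • (kry A v).det := (EQV_thm k n σ).1
    rw [hPdef, map_div₀, h1, h2]
    rcases Int.units_eq_one_or (Equiv.Perm.sign σ) with h | h
    · rw [h, Units.val_one, one_smul, one_smul]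
    · rw [h, Units.val_neg, Units.val_one, neg_smul, neg_smul, one_smul, one_smul]
      exact div_neg _
  set y' : Fin n → RatF k (Fin n) := Function.update y e P with hy'
  set L' := adjoin k (Set.range y') with hL'
  have hyL' : ∀ i, y' i ∈ L' := fun i => subset_adjoin k _ ⟨i, rfl⟩
  have hPL' : P ∈ L' := by
    have h1 := hyL' e
    rwa [hy', Function.update_self] at h1
  have hLL' : L ≤ L' := by
    rw [hL, adjoin_le_iff]
    rintro _ ⟨i, rfl⟩
    by_cases hi : i = e
    · rw [hi, hye]
      have h1 : c e = - P ^ 2 := by rw [hr, neg_neg]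
      rw [h1]
      exact neg_mem (pow_mem hPL' 2)
    · have h1 := hyL' i
      rwa [hy', Function.update_of_ne hi] at h1
  have hmain : L' = invField k (alternatingGroup (Fin n)) := by
    apply le_antisymm
    · rw [hL', adjoin_le_iff]
      rintro _ ⟨i, rfl⟩ σ hσ
      by_cases hi : i = e
      · rw [hi, hy', Function.update_self, hPs, Equiv.Perm.mem_alternatingGroup.mp hσ]
        simp
      · rw [hy', Function.update_of_ne hi]
        exact hLS (hyL i) σ (Subgroup.mem_top σ)
    · intro f hf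
      obtain ⟨a, ha, b, hb, rfl⟩ := decomp k hn P hP0 hPs f hf
      exact add_mem (hLL' (hSL ha)) (mul_mem (hLL' (hSL hb)) hPL')
  exact ⟨y', algInd k hmain, hmain⟩

end Pool.Agent.NCMk
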