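import Pool.Agent.NCMk.SPEC

/-!
# The zeros of the Hermite polynomials
-/

open Matrix Finset Pool.Agent.NCM Polynomial

namespace Pool.Agent.NCMk

namespace HERM

/-- The Hermite polynomial over `ℂ`. -/
noncomputable def H (n : ℕ) : ℂ[X] := (hermite n).map (Int.castRingHom ℂ)

theorem H_succ (n : ℕ) : H (n + 1) = X * H n - derivative (H n) := by
  simp [H, Polynomial.derivative_map]

theorem H_zero : H 0 = 1 := by simp [H]

theorem H_monic (n : ℕ) : (H n).Monic := (hermite_monic n).map _

theorem H_natDegree (n : ℕ) : (H n).natDegree = n := by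
  rw [H, (hermite_monic n).natDegree_map, natDegree_hermite]

theorem H_deriv (n : ℕ) : derivative (H (n + 1)) = ((n : ℂ[X]) + 1) * H n := by
  induction n with
  | zero =>
    rw [H_succ, H_zero]
    simp
  | succ n ih =>
    rw [H_succ (n + 1), ih, derivative_sub, derivative_mul, ih, derivative_X]
    have h1 : derivative (((n : ℂ[X]) + 1) * H n) = ((n : ℂ[X]) + 1) * derivative (H n) := by
      rw [derivative_mul]
      simp
    rw [h1, H_succ n]
    push_cast
    ring

theorem H_ode (n : ℕ) : derivative (derivative (H n)) = X * derivative (H n) - (n : ℂ[X]) * H n := by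
  have h1 := H_deriv n
  rw [H_succ, derivative_sub, derivative_mul, derivative_X] at h1
  linear_combination -h1

theorem H_simple (n : ℕ) (a : ℂ) (h0 : (H n).eval a = 0) : (derivative (H n)).eval a ≠ 0 := by
  induction n with
  | zero => rw [H_zero] at h0; simp at h0
  | succ n ih =>
    intro h1
    rw [H_deriv, eval_mul] at h1
    have h2 : (H n).eval a = 0 := by
      refine (mul_eq_zero.mp h1).resolve_left ?_
      simp only [eval_add, eval_natCast, eval_one]
      exact_mod_cast Nat.succ_ne_zero n
    rw [H_succ, eval_sub, eval_mul, h2, mul_zero, zero_sub, neg_eq_zero] at h0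
    exact ih h2 h0

/-- Simple roots. -/
theorem exists_roots (n : ℕ) : ∃ t : Fin n → ℂ, Function.Injective t ∧
    H n = ∏ i, (X - C (t i)) := by
  have hH0 : H n ≠ 0 := (H_monic n).ne_zero
  have hnodup : (H n).roots.Nodup := by
    rw [Multiset.nodup_iff_count_le_one]
    intro a
    rw [count_roots]
    by_contra hc
    have h2 : 1 < (H n).rootMultiplicity a := not_le.mp hc
    rw [one_lt_rootMultiplicity_iff_isRoot hH0] at h2
    exact H_simple n a h2.1 h2.2
  have hcard : Multiset.card (H n).roots = n := by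
    have h := (IsAlgClosed.splits (H n)).natDegree_eq_card_roots
    rw [← h, H_natDegree]
  have hfc : (H n).roots.toFinset.card = n := by
    rw [Multiset.toFinset_card_of_nodup hnodup, hcard]
  let e := ((H n).roots.toFinset.equivFinOfCardEq hfc).symm
  refine ⟨fun i => (e i : ℂ), fun i j h => e.injective (Subtype.ext h), ?_⟩
  have h1 := prod_multiset_X_sub_C_of_monic_of_roots_card_eq (H_monic n)
    (by rw [hcard, H_natDegree])
  have h2 : (Multiset.map (fun a => X - C a) (H n).roots).prod =
      ∏ a ∈ (H n).roots.toFinset, (X - C a) := by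
    rw [Finset.prod, Multiset.toFinset_val, Multiset.dedup_eq_self.mpr hnodup]
  have h3 : ∏ a ∈ (H n).roots.toFinset, (X - C a) = ∏ i : Fin n, (X - C (e i : ℂ)) := by
    rw [← Finset.prod_coe_sort]
    exact (Equiv.prod_comp e (fun a : (H n).roots.toFinset => X - C (a : ℂ))).symm
  exact h1.symm.trans (h2.trans h3)

/-- The relation of Stieltjes. -/
theorem stieltjes {n : ℕ} {t : Fin n → ℂ} (ht : Function.Injective t)
    (hH : H n = ∏ i, (X - C (t i))) (i : Fin n) :
    2 * ∑ j ∈ univ.erase i, (t i - t j)⁻¹ = t i := by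
  set h : ℂ[X] := ∏ j ∈ univ.erase i, (X - C (t j)) with hh
  have hf : H n = (X - C (t i)) * h := by
    rw [hH, hh]
    exact (Finset.mul_prod_erase univ (fun j => X - C (t j)) (mem_univ i)).symm
  have hd1 : derivative (H n) = h + (X - C (t i)) * derivative h := by
    rw [hf, derivative_mul]
    simp
  have hd2 : derivative (derivative (H n)) =
      2 * derivative h + (X - C (t i)) * derivative (derivative h) := by
    rw [hd1, derivative_add, derivative_mul]
    simp
    ring
  have e1 : (derivative (H n)).eval (t i) = h.eval (t i) := by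
    rw [hd1]
    simp
  have e2 : (derivative (derivative (H n))).eval (t i) = 2 * (derivative h).eval (t i) := by
    rw [hd2]
    simp
  have e3 : (H n).eval (t i) = 0 := by
    rw [hf]
    simp
  have hode := congrArg (eval (t i)) (H_ode n)
  rw [e2, eval_sub, eval_mul, eval_mul, e3, e1, eval_X, mul_zero, sub_zero] at hode
  have hne : h.eval (t i) ≠ 0 := by
    rw [← e1]
    exact H_simple n (t i) e3
  have hder : (derivative h).eval (t i) = h.eval (t i) * ∑ j ∈ univ.erase i, (t i - t j)⁻¹ := by
    rw [hh, derivative_prod_finset, eval_finsetSum, Finset.mul_sum]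
    refine Finset.sum_congr rfl fun j hj => ?_
    have hji : t i - t j ≠ 0 :=
      sub_ne_zero.mpr fun e => (Finset.ne_of_mem_erase hj) (ht e).symm
    rw [← Finset.mul_prod_erase _ _ hj]
    simp only [derivative_sub, derivative_X, derivative_C, sub_zero, mul_one, eval_mul, eval_sub,
      eval_X, eval_C]
    field_simp
  rw [hder] at hode
  have h4 : h.eval (t i) * (2 * ∑ j ∈ univ.erase i, (t i - t j)⁻¹) = h.eval (t i) * t i := by
    linear_combination hode
  exact mul_left_cancel₀ hne h4

/-- The matrix `(1 / (t_i - t_j))`. -/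
noncomputable def M {n : ℕ} (t : Fin n → ℂ) : Matrix (Fin n) (Fin n) ℂ :=
  Matrix.of fun i j => (t i - t j)⁻¹

/-- The action of the matrix on polynomials. -/
theorem action {n : ℕ} {t : Fin n → ℂ} (ht : Function.Injective t)
    (hH : H n = ∏ i, (X - C (t i))) (p : ℂ[X]) (hp : p.Monic) :
    ∃ q : ℂ[X], q.Monic ∧ q.natDegree = p.natDegree + 1 ∧
      ∀ i, (M t *ᵥ fun j => p.eval (t j)) i = (1 / 2) * q.eval (t i) := by
  -- the divided differences
  let d : Fin n → ℂ[X] := fun j => p /ₘ (X - C (t j))
  have hd : ∀ j, p = C (p.eval (t j)) + (X - C (t j)) * d j := by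
    intro j
    have h := modByMonic_add_div p (X - C (t j))
    rw [modByMonic_X_sub_C_eq_C_eval] at h
    exact h.symm
  have hdder : ∀ j, (d j).eval (t j) = (derivative p).eval (t j) := by
    intro j
    conv_rhs => rw [hd j]
    simp
  let r : ℂ[X] := ∑ j, d j - derivative p
  have hr : r.degree < (X * p).degree := by
    have hp1 : p.degree < (X * p).degree := by
      rw [degree_mul, degree_X, degree_eq_natDegree hp.ne_zero]
      norm_cast
      omega
    refine lt_of_le_of_lt ?_ hp1
    refine (degree_sub_le _ _).trans (max_le ?_ (degree_derivative_le.trans le_rfl))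
    refine (degree_sum_le _ _).trans (Finset.sup_le fun j _ => ?_)
    exact degree_divByMonic_le p _
  refine ⟨X * p - 2 * r, ?_, ?_, ?_⟩
  · have h2r : (2 * r).degree < (X * p).degree := by
      have : (2 * r) = C 2 * r := by rw [C_ofNat]
      rw [this, degree_C_mul (by norm_num)]
      exact hr
    exact (monic_X.mul hp).sub_of_left h2r
  · have h2r : (2 * r).degree < (X * p).degree := by
      have : (2 * r) = C 2 * r := by rw [C_ofNat]
      rw [this, degree_C_mul (by norm_num)]
      exact hr
    rw [natDegree_eq_of_degree_eq (degree_sub_eq_left_of_degree_lt h2r),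
      natDegree_X_mul hp.ne_zero]
  · intro i
    have h1 : (M t *ᵥ fun j => p.eval (t j)) i =
        ∑ j ∈ univ.erase i, (t i - t j)⁻¹ * p.eval (t j) := by
      rw [mulVec, dotProduct, ← Finset.add_sum_erase _ _ (mem_univ i)]
      simp [M]
    have h2 : ∀ j ∈ univ.erase i, (t i - t j)⁻¹ * p.eval (t j) =
        (t i - t j)⁻¹ * p.eval (t i) - (d j).eval (t i) := by
      intro j hj
      have hji : t i - t j ≠ 0 :=
        sub_ne_zero.mpr fun e => (Finset.ne_of_mem_erase hj) (ht e).symm
      have h3 : p.eval (t i) = p.eval (t j) + (t i - t j) * (d j).eval (t i) := by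
        have h4 := congrArg (eval (t i)) (hd j)
        simpa using h4
      rw [h3]
      field_simp
      ring
    rw [h1, Finset.sum_congr rfl h2, Finset.sum_sub_distrib, ← Finset.sum_mul]
    have h3 := stieltjes ht hH i
    have h4 : r.eval (t i) = ∑ j ∈ univ.erase i, (d j).eval (t i) := by
      simp only [r, eval_sub, eval_finsetSum]
      rw [← Finset.add_sum_erase _ _ (mem_univ i), hdder]
      ring
    rw [eval_sub, eval_mul, eval_X, eval_mul, h4, eval_ofNat]
    linear_combination (1 / 2) * p.eval (t i) * h3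

theorem powers {n : ℕ} {t : Fin n → ℂ} (ht : Function.Injective t)
    (hH : H n = ∏ i, (X - C (t i))) (m : ℕ) :
    ∃ p : ℂ[X], p.Monic ∧ p.natDegree = m ∧
      ∀ i, ((M t ^ m) *ᵥ fun _ => 1) i = (1 / 2) ^ m * p.eval (t i) := by
  induction m with
  | zero => exact ⟨1, monic_one, natDegree_one, fun i => by simp⟩
  | succ m ih =>
    obtain ⟨p, hp, hpd, hpe⟩ := ih
    obtain ⟨q, hq, hqd, hqe⟩ := action ht hH p hp
    refine ⟨q, hq, by rw [hqd, hpd], fun i => ?_⟩
    have h1 : ((M t ^ m) *ᵥ fun _ => 1) = (1 / 2 : ℂ) ^ m • fun j => p.eval (t j) := by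
      funext j
      rw [hpe j]
      rfl
    rw [pow_succ', ← mulVec_mulVec, h1, mulVec_smul, Pi.smul_apply, smul_eq_mul, hqe, pow_succ]
    ring

end HERM

open HERM in
theorem HERM_thm (n : ℕ) : ∃ t : Fin n → ℂ, Function.Injective t ∧
    (kry (Matrix.of fun i j => (t i - t j)⁻¹ : Matrix (Fin n) (Fin n) ℂ)
      (fun _ => 1)).det ≠ 0 := by
  obtain ⟨t, ht, hH⟩ := exists_roots n
  refine ⟨t, ht, ?_⟩
  choose p hp hpd hpe using powers ht hH
  have h1 : kry (M t) (fun _ => 1) =
      Matrix.of fun i j : Fin n => (1 / 2 : ℂ) ^ (j : ℕ) *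
        (Matrix.of (fun i j : Fin n => (p j).eval (t i))) i j := by
    ext i j
    exact hpe j i
  change (kry (M t) (fun _ => 1)).det ≠ 0
  rw [h1, det_mul_row, ← det_eval_matrixOfPolynomials_eq_det_vandermonde t (fun j => p j)
    (fun j => hpd j) (fun j => hp j)]
  refine mul_ne_zero (Finset.prod_ne_zero_iff.mpr fun j _ => pow_ne_zero _ (by norm_num)) ?_
  rw [det_vandermonde_ne_zero_iff]
  exact ht

theorem NDGk_thm (k : Type) [Field k] [CharZero k] (n : ℕ) :
    (kry (cmA k n) (cmv k n)).det ≠ 0 := by
  obtain ⟨t, ht, h⟩ := HERM_thm n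
  exact SPEC_thm n ℂ t ht h k

end Pool.Agent.NCMk
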