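import Pool.Agent.NCMk.FIN
import Pool.Agent.NCMk.HERM
import Pool.Agent.NCMk.DEVk
import Pool.Agent.NCM.TRC
import Pool.Agent.NCM.CORE
import Pool.Agent.NCM.SQ
import Pool.Agent.NCM.DOD
import Pool.Agent.NCM.PF

/-!
# Noether's problem for the alternating groups over fields of characteristic zero
-/

open IntermediateField

namespace Pool.Agent.NCMk

open Pool.Agent.NCM in
/-- For every field `k` of characteristic zero and every `n` the field of invariants of the
alternating group `A_n` acting on `k(x_1, ..., x_n)` is purely transcendental over `k`. -/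
theorem main (k : Type) [Field k] [CharZero k] (n : ℕ) :
    ∃ y : Fin n → RatF k (Fin n), AlgebraicIndependent k y ∧
      adjoin k (Set.range y) = invField k (alternatingGroup (Fin n)) := by
  have hT := TRC_thm
  have hM := COMP_thm hT
  have hC := CORE_thm hT
  have hP := PF_thm hT SQ_thm (NCMk.DEV_thm hM) (DOD_thm hT hM)
  exact FIN_thm k hT hM hC hP n (NDGk_thm k n)

end Pool.Agent.NCMk
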