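import Pool.Agent.NCMk.Base

/-!
# Specialisation of the variables
-/

open Matrix Finset Pool.Agent.NCM

namespace Pool.Agent.NCMk

namespace SPEC

open MvPolynomial in
/-- The product of all differences of variables. -/
noncomputable def V (n : ℕ) : MvPolynomial (Fin n) ℤ :=
  ∏ p ∈ (univ : Finset (Fin n)).offDiag, (X p.1 - X p.2)

open MvPolynomial in
/-- The matrix `V / (x_i - x_j)`. -/
noncomputable def B (n : ℕ) : Matrix (Fin n) (Fin n) (MvPolynomial (Fin n) ℤ) :=
  Matrix.of fun i j => if i = j then 0 else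
    ∏ p ∈ ((univ : Finset (Fin n)).offDiag).erase (i, j), (X p.1 - X p.2)

/-- The determinant of the Krylov matrix of `B`. -/
noncomputable def D (n : ℕ) : MvPolynomial (Fin n) ℤ :=
  (Matrix.of fun i j : Fin n => ((B n ^ (j : ℕ)) *ᵥ (fun _ => 1)) i).det

variable {n : ℕ} {F : Type} [Field F] (ψ : MvPolynomial (Fin n) ℤ →+* F) (t : Fin n → F)
  (ht : ∀ i, ψ (MvPolynomial.X i) = t i) (hinj : Function.Injective t)

include ht in
theorem map_V : ψ (V n) = ∏ p ∈ (univ : Finset (Fin n)).offDiag, (t p.1 - t p.2) := by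
  rw [V, map_prod]
  exact Finset.prod_congr rfl fun p _ => by rw [map_sub, ht, ht]

include ht hinj in
theorem map_V_ne : ψ (V n) ≠ 0 := by
  rw [map_V ψ t ht, Finset.prod_ne_zero_iff]
  intro p hp
  rw [mem_offDiag] at hp
  exact sub_ne_zero.mpr fun h => hp.2.2 (hinj h)

include ht hinj in
theorem map_B : ψ.mapMatrix (B n) =
    ψ (V n) • (Matrix.of fun i j => (t i - t j)⁻¹ : Matrix (Fin n) (Fin n) F) := by
  ext i j
  rw [RingHom.mapMatrix_apply, Matrix.map_apply, Matrix.smul_apply, of_apply, smul_eq_mul, B,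
    of_apply]
  by_cases h : i = j
  · subst h
    simp
  · rw [if_neg h, map_prod, map_V ψ t ht]
    have hmem : (i, j) ∈ (univ : Finset (Fin n)).offDiag := by
      rw [mem_offDiag]
      exact ⟨mem_univ _, mem_univ _, h⟩
    rw [← Finset.mul_prod_erase _ _ hmem]
    have h1 : t i - t j ≠ 0 := sub_ne_zero.mpr fun e => h (hinj e)
    have h2 : ∏ p ∈ ((univ : Finset (Fin n)).offDiag).erase (i, j),
        ψ (MvPolynomial.X p.1 - MvPolynomial.X p.2) =
        ∏ p ∈ ((univ : Finset (Fin n)).offDiag).erase (i, j), (t p.1 - t p.2) :=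
      Finset.prod_congr rfl fun p _ => by rw [map_sub, ht, ht]
    rw [h2]
    field_simp

include ht hinj in
theorem map_D : ψ (D n) = (∏ j : Fin n, ψ (V n) ^ (j : ℕ)) *
    (kry (Matrix.of fun i j => (t i - t j)⁻¹ : Matrix (Fin n) (Fin n) F) (fun _ => 1)).det := by
  rw [D, RingHom.map_det, ← det_mul_row]
  congr 1
  ext i j
  rw [RingHom.mapMatrix_apply, Matrix.map_apply, of_apply, of_apply]
  have h := RingHom.map_mulVec ψ (B n ^ (j : ℕ)) (fun _ => 1) i
  have h2 : (ψ : MvPolynomial (Fin n) ℤ → F) ∘ (fun _ : Fin n => (1 : MvPolynomial (Fin n) ℤ)) =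
      fun _ => 1 := by
    funext a
    simp
  have h3 : (B n ^ (j : ℕ)).map ψ = ψ (V n) ^ (j : ℕ) •
      (Matrix.of fun i j => (t i - t j)⁻¹ : Matrix (Fin n) (Fin n) F) ^ (j : ℕ) := by
    rw [← RingHom.mapMatrix_apply, map_pow, map_B ψ t ht hinj, smul_pow]
  rw [h2, h3, smul_mulVec] at h
  rw [h]
  rfl

end SPEC

open SPEC in
/-- If the Krylov matrix is invertible at some point then it is invertible at the generic
point. -/
theorem SPEC_thm (n : ℕ) (F : Type) [Field F] (t : Fin n → F) (ht : Function.Injective t)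
    (h : (kry (Matrix.of fun i j => (t i - t j)⁻¹ : Matrix (Fin n) (Fin n) F)
      (fun _ => 1)).det ≠ 0) (k : Type) [Field k] [CharZero k] :
    (kry (cmA k n) (cmv k n)).det ≠ 0 := by
  have hD : D n ≠ 0 := by
    intro h0
    have h1 := map_D (MvPolynomial.eval₂Hom (Int.castRingHom F) t) t (fun i => by simp) ht
    rw [h0, map_zero] at h1
    have h2 : ∏ j : Fin n, (MvPolynomial.eval₂Hom (Int.castRingHom F) t) (V n) ^ (j : ℕ) ≠ 0 :=
      Finset.prod_ne_zero_iff.mpr fun j _ => pow_ne_zero _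
        (map_V_ne (MvPolynomial.eval₂Hom (Int.castRingHom F) t) t (fun i => by simp) ht)
    exact (mul_ne_zero h2 h) h1.symm
  let ψ : MvPolynomial (Fin n) ℤ →+* RatF k (Fin n) :=
    (algebraMap (MvPolynomial (Fin n) k) (RatF k (Fin n))).comp
      (MvPolynomial.map (Int.castRingHom k))
  have hψ : Function.Injective ψ :=
    (IsFractionRing.injective (MvPolynomial (Fin n) k) (RatF k (Fin n))).comp
      (MvPolynomial.map_injective _ (RingHom.injective_int _))
  have hψX : ∀ i, ψ (MvPolynomial.X i) = vr k i := by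
    intro i
    simp only [ψ, RingHom.comp_apply, MvPolynomial.map_X]
    rfl
  have h1 := map_D ψ (vr k) hψX (vr_injective k _)
  intro h0
  apply hD
  apply hψ
  rw [h1, map_zero]
  have h2 : (kry (Matrix.of fun i j => (vr k i - vr k j)⁻¹ :
      Matrix (Fin n) (Fin n) (RatF k (Fin n))) (fun _ => 1)).det = 0 := h0
  rw [h2, mul_zero]

end Pool.Agent.NCMk
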